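import Pool.Agent.Zk58.EK.Cv
import Pool.Agent.Zk85.EKm.CV3a

/-!
# Module CV3, second half: the covariant choice from the convergence of the fractions
-/

set_option autoImplicit false
set_option linter.unusedSectionVars false

namespace Pool.Agent.Zk83.EKm

open Finset MeasureTheory ProbabilityTheory Filter
open Pool.Agent.Zk58.EK

open scoped BigOperators ENNReal Topology NNReal

variable {d : ℕ} {S : Type} [MeasurableSpace S] {ψ : S → ℝ} {sg : ℕ → Bond d → Set (Bond d → S)}

theorem flp_val {A : Finset (Site d)} {ρ : Site d → ℝ} (h : ∀ x, ρ x = 1 ∨ ρ x = -1) (x : Site d) :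
    flp A ρ x = 1 ∨ flp A ρ x = -1 := by
  by_cases hx : x ∈ A
  · rw [flp_in hx]
    rcases h x with h1 | h1 <;> rw [h1] <;> norm_num
  · rw [flp_out hx]
    exact h x

theorem near_bs {J : Bond d → ℝ} {n : ℕ} {ρ : Site d → ℝ} (h : NearGS J 0 0 n ρ) {A : Finset (Site d)}
    (hA : ∀ e ∈ bdry A, e ∈ bonds (cube (0 : Site d) n)) : 0 ≤ bs J ρ A := by
  classical
  have h1 := h.2 (flp A ρ) (flp_val h.1)
  have h3 : bs J ρ A = ∑ e ∈ bonds (cube (0 : Site d) n),
      if e ∈ bdry A then J e * (ρ e.1 * ρ (tip e)) else 0 := by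
    rw [← sum_filter]
    unfold bs
    refine sum_congr ?_ fun _ _ => rfl
    ext e
    simp only [mem_filter]
    exact ⟨fun h => ⟨hA e h, h⟩, fun h => h.2⟩
  have h2 : ∑ e ∈ bonds (cube (0 : Site d) n), J e * (flp A ρ e.1 * flp A ρ (tip e)) =
      ∑ e ∈ bonds (cube (0 : Site d) n), J e * (ρ e.1 * ρ (tip e)) - 2 * bs J ρ A := by
    rw [h3, mul_sum, ← sum_sub_distrib]
    refine sum_congr rfl fun e _ => ?_
    by_cases hx : e.1 ∈ A <;> by_cases hy : tip e ∈ A
    · have : ¬ e ∈ bdry A := by rw [mem_bdry]; tauto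
      rw [if_neg this, flp_in hx, flp_in hy]
      ring
    · have : e ∈ bdry A := by rw [mem_bdry]; tauto
      rw [if_pos this, flp_in hx, flp_out hy]
      ring
    · have : e ∈ bdry A := by rw [mem_bdry]; tauto
      rw [if_pos this, flp_out hx, flp_in hy]
      ring
    · have : ¬ e ∈ bdry A := by rw [mem_bdry]; tauto
      rw [if_neg this, flp_out hx, flp_out hy]
      ring
  rw [h2] at h1
  linarith

open Classical in
/-- the wrong places -/
noncomputable def Vb (sg : ℕ → Bond d → Set (Bond d → S)) (n : ℕ) (i : Fin d) (X : Bond d → S) (P : Prop) :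
    Finset (Site d) := {y ∈ cube (0 : Site d) n | ¬ (th (-y) X ∈ sg n (y, i) ↔ P)}

theorem frc_eq (n : ℕ) (i : Fin d) (X : Bond d → S) :
    frc sg n i X = ((Vb sg n i X False).card : ℝ) / (n : ℝ) ^ d := by
  classical
  unfold frc Vb
  congr 1
  rw [card_filter]
  push_cast
  refine sum_congr rfl fun y _ => ?_
  rw [Set.indicator_apply]
  simp

theorem frc_eq' {n : ℕ} (hn : 0 < n) (i : Fin d) (X : Bond d → S) :
    1 - frc sg n i X = ((Vb sg n i X True).card : ℝ) / (n : ℝ) ^ d := by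
  classical
  have hn' : (0 : ℝ) < (n : ℝ) ^ d := by positivity
  rw [frc_eq, eq_div_iff hn'.ne', sub_mul, div_mul_cancel₀ _ hn'.ne', one_mul]
  have h1 : (Vb sg n i X False).card + (Vb sg n i X True).card = n ^ d := by
    rw [← card_cube (0 : Site d) n]
    unfold Vb
    simp only [iff_false, not_not, iff_true]
    exact card_filter_add_card_filter_not _
  have h2 : ((Vb sg n i X False).card : ℝ) + (Vb sg n i X True).card = (n : ℝ) ^ d := by
    exact_mod_cast h1
  linarith

theorem Vb_lim {φ : ℕ → ℕ} (hφ : Tendsto φ atTop atTop) {i : Fin d} {X : Bond d → S} {P : Prop}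
    (h1 : P → Tendsto (fun k => frc sg (φ k) i X) atTop (𝓝 1))
    (h0 : ¬ P → Tendsto (fun k => frc sg (φ k) i X) atTop (𝓝 0)) :
    Tendsto (fun k => ((Vb sg (φ k) i X P).card : ℝ) / (φ k : ℝ) ^ d) atTop (𝓝 0) := by
  by_cases hP : P
  · have h2 : P = True := eq_true hP
    have h3 : Tendsto (fun k => 1 - frc sg (φ k) i X) atTop (𝓝 (1 - 1)) := (h1 hP).const_sub 1
    rw [sub_self] at h3
    refine h3.congr' ?_
    filter_upwards [hφ.eventually (eventually_gt_atTop 0)] with k hk
    rw [frc_eq' hk, h2]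
  · have h2 : P = False := eq_false hP
    refine (h0 hP).congr fun k => ?_
    rw [frc_eq, h2]

theorem in_lim (d m : ℕ) : Tendsto (fun n : ℕ => ((n - (2 * m + 2) : ℕ) : ℝ) ^ d / (n : ℝ) ^ d) atTop (𝓝 1) := by
  have h1 : Tendsto (fun n : ℕ => 1 - ((2 * m + 2 : ℕ) : ℝ) / (n : ℝ)) atTop (𝓝 (1 - 0)) :=
    (tendsto_const_div_atTop_nhds_zero_nat _).const_sub 1
  rw [sub_zero] at h1
  have h2 := h1.pow d
  rw [one_pow] at h2
  refine h2.congr' ?_
  filter_upwards [eventually_ge_atTop (2 * m + 2)] with n hn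
  have hn' : (0 : ℝ) < n := by
    have : 0 < n := by omega
    exact_mod_cast this
  rw [← div_pow, Nat.cast_sub hn, sub_div, div_self hn'.ne']

theorem window {X : Bond d → S} {φ : ℕ → ℕ} (hφ : Tendsto φ atTop atTop) (P : Bond d → Prop)
    (h1 : ∀ e : Bond d, P e → Tendsto (fun k => frc sg (φ k) e.2 (th e.1 X)) atTop (𝓝 1))
    (h0 : ∀ e : Bond d, ¬ P e → Tendsto (fun k => frc sg (φ k) e.2 (th e.1 X)) atTop (𝓝 0))
    (hsg : IsSg ψ sg) (m : ℕ) : ∃ σ : Site d → ℝ, (∀ x, σ x = 1 ∨ σ x = -1) ∧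
      (∀ A ⊆ Bx d m, 0 ≤ bs (fun e => ψ (X e)) σ A) ∧
      ∀ e : Bond d, e.1 ∈ Bx d m → (σ e.1 * σ (tip e) = 1 ↔ P e) := by
  classical
  set Wd : Finset (Bond d) := Bx d m ×ˢ (Finset.univ : Finset (Fin d)) with hWd
  have hs : Tendsto (fun k => ∑ e ∈ Wd, ((Vb sg (φ k) e.2 (th e.1 X) (P e)).card : ℝ) / (φ k : ℝ) ^ d) atTop
      (𝓝 (∑ _e ∈ Wd, (0 : ℝ))) :=
    tendsto_finsetSum _ fun e _ => Vb_lim hφ (h1 e) (h0 e)
  rw [sum_const_zero] at hs
  have hi := (in_lim d m).comp hφ
  obtain ⟨k, ⟨hk1, hk2⟩, hk3⟩ := (((hs.eventually (gt_mem_nhds (show (0 : ℝ) < 1 / 2 by norm_num))).and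
    (hi.eventually (lt_mem_nhds (show (1 / 2 : ℝ) < 1 by norm_num)))).and
      (hφ.eventually (eventually_gt_atTop 0))).exists
  set n := φ k with hn
  have hn' : (0 : ℝ) < (n : ℝ) ^ d := by positivity
  simp only [Function.comp_apply] at hk2
  rw [← hn] at hk2
  set G : Finset (Site d) := cube (fun _ => (m : ℤ) + 1) (n - (2 * m + 2)) with hG
  set Bad : Finset (Site d) := Wd.biUnion fun e => (Vb sg n e.2 (th e.1 X) (P e)).image fun y => y - e.1
    with hBad
  have hcard : Bad.card < G.card := by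
    have c1 : (Bad.card : ℝ) ≤ ∑ e ∈ Wd, ((Vb sg n e.2 (th e.1 X) (P e)).card : ℝ) := by
      have : Bad.card ≤ ∑ e ∈ Wd, (Vb sg n e.2 (th e.1 X) (P e)).card :=
        card_biUnion_le.trans (sum_le_sum fun e _ => card_image_le)
      exact_mod_cast this
    have c2 : (G.card : ℝ) = ((n - (2 * m + 2) : ℕ) : ℝ) ^ d := by
      rw [hG, card_cube]
      push_cast
      rfl
    have c3 : (∑ e ∈ Wd, ((Vb sg n e.2 (th e.1 X) (P e)).card : ℝ)) < 1 / 2 * (n : ℝ) ^ d := by
      rw [← div_lt_iff₀ hn', sum_div]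
      exact hk1
    have c4 : 1 / 2 * (n : ℝ) ^ d < ((n - (2 * m + 2) : ℕ) : ℝ) ^ d := by
      rwa [lt_div_iff₀ hn'] at hk2
    have c5 : (Bad.card : ℝ) < G.card := by
      rw [c2]
      linarith
    exact_mod_cast c5
  obtain ⟨y, hyG, hyB⟩ := exists_mem_notMem_of_card_lt_card hcard
  have hin : ∀ z : Site d, (∀ i, -((m : ℤ) + 1) ≤ z i - y i ∧ z i - y i ≤ m + 1) →
      z ∈ cube (0 : Site d) n := by
    intro z hz
    rw [mem_cube]
    intro i
    have a1 := (mem_cube.1 hyG) i
    have a2 := hz i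
    simp only [Pi.zero_apply, zero_add] at a1 ⊢
    omega
  obtain ⟨ρ, hρ, hρs⟩ := hsg.2 (th (-y) X) n
  have hsh : (fun z => ρ (z - (-y))) = fun z => ρ (z + y) := by
    funext z
    rw [sub_neg_eq_add]
  refine ⟨fun z => ρ (z + y), fun x => hρ.1 _, fun A hA => ?_, fun e he => ?_⟩
  · rw [← hsh, bs_shift]
    refine near_bs hρ fun e he => ?_
    rw [mem_bdry] at he
    simp only [mem_map_equiv, Equiv.subRight_symm_apply] at he
    have hor : e.1 + -y ∈ A ∨ tip e + -y ∈ A := by tauto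
    rw [mem_bonds]
    rcases hor with h | h
    · have b1 := mem_Bx.1 (hA h)
      constructor
      · refine hin _ fun i => ?_
        have := b1 i
        simp only [Pi.add_apply, Pi.neg_apply] at this
        constructor <;> linarith [this.1, this.2]
      · refine hin _ fun i => ?_
        have := b1 i
        simp only [Pi.add_apply, Pi.neg_apply] at this
        rw [tip_apply]
        split_ifs <;> constructor <;> linarith [this.1, this.2]
    · have b1 := mem_Bx.1 (hA h)
      constructor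
      · refine hin _ fun i => ?_
        have := b1 i
        simp only [Pi.add_apply, Pi.neg_apply] at this
        rw [tip_apply] at this
        split_ifs at this <;> constructor <;> linarith [this.1, this.2]
      · refine hin _ fun i => ?_
        have := b1 i
        simp only [Pi.add_apply, Pi.neg_apply] at this
        constructor <;> linarith [this.1, this.2]
  · have b1 := mem_Bx.1 he
    have hx : e.1 + y ∈ cube (0 : Site d) n := by
      refine hin _ fun i => ?_
      have := b1 i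
      simp only [Pi.add_apply]
      constructor <;> linarith [this.1, this.2]
    have hb : ((e.1 + y, e.2) : Bond d) ∈ bonds (cube (0 : Site d) n) := by
      rw [mem_bonds]
      refine ⟨hx, ?_⟩
      rw [tip_shift]
      refine hin _ fun i => ?_
      have := b1 i
      simp only [Pi.add_apply]
      rw [tip_apply]
      split_ifs <;> constructor <;> linarith [this.1, this.2]
    have hw : e.1 + y ∉ Vb sg n e.2 (th e.1 X) (P e) := by
      intro hcon
      apply hyB
      rw [hBad, mem_biUnion]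
      refine ⟨e, ?_, ?_⟩
      · rw [hWd, mem_product]
        exact ⟨he, mem_univ _⟩
      · rw [mem_image]
        exact ⟨e.1 + y, hcon, by abel⟩
    unfold Vb at hw
    rw [mem_filter, not_and, not_not] at hw
    have h3 := hw hx
    rw [th_th, show -(e.1 + y) + e.1 = -y by abel] at h3
    have h4 := hρs _ hb
    rw [tip_shift] at h4
    exact h4.trans h3

theorem frc_meas (hsg : IsSg ψ sg) (n : ℕ) (i : Fin d) : Measurable fun X => frc sg n i X := by
  unfold frc
  refine Measurable.div_const (Finset.measurable_fun_sum _ fun y _ => ?_) _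
  exact (measurable_one.indicator (hsg.1 n (y, i))).comp (th_meas _)

theorem second (hd : 2 ≤ d) (μ : Measure S) [IsProbabilityMeasure μ] (hψ : Measurable ψ)
    (hat : ∀ t : ℝ, μ {s | ψ s = t} = 0) (hsg : IsSg ψ sg) {φ : ℕ → ℕ} (hφ : Tendsto φ atTop atTop)
    (h : ∀ᵐ X ∂(PX d μ), ∀ (x : Site d) (i : Fin d),
      Tendsto (fun k => frc sg (φ k) i (th x X)) atTop (𝓝 0) ∨
      Tendsto (fun k => frc sg (φ k) i (th x X)) atTop (𝓝 1)) : CovariantChoice μ ψ d := by
  classical
  refine ⟨fun i => {X | ∀ᶠ k in atTop, 1 / 2 < frc sg (φ k) i X}, fun i => ?_, ?_⟩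
  · have h1 : {X | ∀ᶠ k in atTop, 1 / 2 < frc sg (φ k) i X} =
        ⋃ N : ℕ, ⋂ k : ℕ, ⋂ _ : N ≤ k, {X | 1 / 2 < frc sg (φ k) i X} := by
      ext X
      simp only [Set.mem_ofPred_eq, eventually_atTop, Set.mem_iUnion, Set.mem_iInter]
    change MeasurableSet {X | ∀ᶠ k in atTop, 1 / 2 < frc sg (φ k) i X}
    rw [h1]
    exact MeasurableSet.iUnion fun N => MeasurableSet.iInter fun k => MeasurableSet.iInter fun _ =>
      measurableSet_lt measurable_const (frc_meas hsg _ _)
  · filter_upwards [h, tie d S μ ψ hψ hat] with X hX ht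
    set P : Bond d → Prop := fun e => ∀ᶠ k in atTop, 1 / 2 < frc sg (φ k) e.2 (th e.1 X) with hP
    have h1 : ∀ e : Bond d, P e → Tendsto (fun k => frc sg (φ k) e.2 (th e.1 X)) atTop (𝓝 1) := by
      intro e he
      rcases hX e.1 e.2 with h2 | h2
      · exfalso
        obtain ⟨k, hk1, hk2⟩ := (he.and (h2.eventually (gt_mem_nhds
          (show (0 : ℝ) < 1 / 2 by norm_num)))).exists
        linarith
      · exact h2
    have h0 : ∀ e : Bond d, ¬ P e → Tendsto (fun k => frc sg (φ k) e.2 (th e.1 X)) atTop (𝓝 0) := by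
      intro e he
      rcases hX e.1 e.2 with h2 | h2
      · exact h2
      · exact absurd (h2.eventually (lt_mem_nhds (show (1 / 2 : ℝ) < 1 by norm_num))) he
    choose σ hσ1 hσ2 hσ3 using fun m : ℕ => window hφ P h1 h0 hsg m
    obtain ⟨τ, hτ, hfr⟩ := cpt d 1 S ψ 0 (fun _ _ => 0) X (fun m _ => σ m) (fun m _ x => hσ1 m x)
      (fun m a A hA => by
        refine le_trans ?_ (hσ2 m A hA)
        have hQ : 0 ≤ QA 0 (fun (_ : Bond d → S) (_ : Cfg d 1) => (0 : ℝ)) X A :=
          sum_nonneg fun y _ => Ab_nonneg _ _ _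
        have : 0 ≤ 1 / ((m : ℝ) + 1) := by positivity
        nlinarith)
    refine ⟨τ 0, ht (τ 0) (hτ.1 0) (hτ.2 0) (by omega), fun e => ?_⟩
    have hB := hfr {e.1, tip e}
    have hev : ∀ᶠ m : ℕ in atTop, e.1 ∈ Bx d m := by
      filter_upwards [eventually_ge_atTop (∑ i, (e.1 i).natAbs)] with m hm
      rw [mem_Bx]
      intro i
      have h3 : (e.1 i).natAbs ≤ ∑ i, (e.1 i).natAbs :=
        single_le_sum (f := fun i => (e.1 i).natAbs) (fun _ _ => Nat.zero_le _) (mem_univ i)
      omega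
    obtain ⟨m, hm1, hm2⟩ := (hB.and_eventually hev).exists
    have e1 := hm1 0 e.1 (by simp)
    have e2 := hm1 0 (tip e) (by simp)
    have e3 := hσ3 m e hm2
    rw [e1, e2] at e3
    exact e3

/-- The statement `S_CV3`. -/
theorem t_CV3 : S_CV3 := by
  intro d hd S _ μ _ ψ hψ hat sg hsg h
  obtain ⟨nk, hnk, hX⟩ := Pool.Agent.Zk85.EKm.t_CV3a μ ψ sg hsg h
  exact second hd μ hψ hat hsg hnk.tendsto_atTop hX

end Pool.Agent.Zk83.EKm
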